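import Mathlib

set_option autoImplicit false

namespace Pool.Agent.Results.MP_abea68_an.Main

open Ordinal Set

theorem sparse {L : Type 1} [TopologicalSpace L] (U : ℕ → Set L) (hU : ∀ i, IsClosed (U i))
    (pf : ∀ t, {i | t ∈ U i}.Finite) {B B' : Set L} (hB : IsClosed B)
    (hf : ∀ C, IsClosed C → C ⊆ B → Disjoint C B' → C.Finite) {d : ℕ} {M : Set ℕ}
    (hM : M.Infinite) (h : ∀ t ∈ B', ∀ G : Finset ℕ, ↑G ⊆ M → (∀ i ∈ G, t ∈ U i) → G.card ≤ d) :
    ∃ N : Set ℕ, N.Infinite ∧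
      ∀ t ∈ B, ∀ G : Finset ℕ, ↑G ⊆ N → (∀ i ∈ G, t ∈ U i) → G.card ≤ d + 1 := by
  obtain ⟨S, -, hS⟩ := Order.IsOfFiniteCharacter.exists_maximal (F := {S | S ⊆ M ∧
      ∀ t ∈ B, ∀ G : Finset ℕ, ↑G ⊆ S → (∀ i ∈ G, t ∈ U i) → G.card ≤ d + 1})
    (fun S => ⟨fun h y hy _ => ⟨hy.trans h.1, fun t ht G hG => h.2 t ht G (hG.trans hy)⟩,
      fun h => ⟨fun i hi => (h {i} (by simpa) (finite_singleton i)).1 rfl,
        fun t ht G hG => (h G hG G.finite_toSet).2 t ht G subset_rfl⟩⟩) (x := ∅)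
    ⟨empty_subset _, fun _ _ G hG _ => by simp [Finset.coe_eq_empty.1 (subset_empty_iff.1 hG)]⟩
  refine ⟨S, fun fin => ?_, hS.1.2⟩
  have h1 : (⋃ G ∈ fin.toFinset.powersetCard (d + 1), B ∩ ⋂ i ∈ G, U i).Finite :=
    (Finset.finite_toSet _).biUnion fun G hG => hf _ (hB.inter (isClosed_biInter fun i _ => hU i))
      inter_subset_left (disjoint_left.2 fun t ht ht' => by
        obtain ⟨g1, g2⟩ := Finset.mem_powersetCard.1 hG
        have := h t ht' G (fun i hi => hS.1.1 (fin.mem_toFinset.1 (g1 hi))) (mem_iInter₂.1 ht.2)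
        omega)
  obtain ⟨i, i1, i2⟩ := hM.exists_notMem_finite (fin.union (h1.biUnion fun t _ => pf t))
  refine i2 (Or.inl (hS.2 (y := insert i S) ⟨insert_subset i1 hS.1.1, fun t ht G hG hG' => ?_⟩
    (subset_insert _ _) (mem_insert _ _)))
  by_cases hi : i ∈ G
  · have a1 : ↑(G.erase i) ⊆ S := fun j hj =>
      (hG (Finset.mem_of_mem_erase hj)).resolve_left (Finset.ne_of_mem_erase hj)
    have a2 : ∀ j ∈ G.erase i, t ∈ U j := fun j hj => hG' j (Finset.mem_of_mem_erase hj)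
    have a3 := hS.1.2 t ht _ a1 a2
    have a4 := Finset.card_erase_add_one hi
    by_contra hn
    exact i2 (Or.inr (mem_iUnion₂.2 ⟨t, mem_iUnion₂.2 ⟨G.erase i, Finset.mem_powersetCard.2
      ⟨fun j hj => fin.mem_toFinset.2 (a1 hj), by omega⟩, ht, mem_iInter₂.2 a2⟩, hG' i hi⟩))
  · exact hS.1.2 t ht G (fun j hj => (hG hj).resolve_left (by rintro rfl; exact hi hj)) hG'

theorem clopen (a b : Ordinal.{0}) : IsClopen (Ioc a b) :=
  ⟨Order.Icc_succ_left a b ▸ isClosed_Icc, Order.Ioo_succ_right a b ▸ isOpen_Ioo⟩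

theorem pw (m : ℕ) : (0 : Ordinal.{0}) < ω ^ m := pow_pos omega0_pos m

theorem closed_dvd {c : Ordinal.{0}} (hc : 0 < c) : IsClosed {t | c ∣ t} := by
  refine isOpen_compl_iff.1 (isOpen_iff_mem_nhds.2 fun t ht => Filter.mem_of_superset
    (Ioo_mem_nhds ((mul_div_le t c).lt_of_ne fun e => ht ⟨_, e.symm⟩) (lt_mul_succ_div t hc.ne')) ?_)
  rintro _ ⟨h1, h2⟩ ⟨r, rfl⟩
  exact absurd (Order.lt_succ_iff.1 ((mul_lt_mul_iff_right₀ hc).1 h2))
    (not_le.2 ((mul_lt_mul_iff_right₀ hc).1 h1))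

theorem isolated {c t : Ordinal.{0}} (hc : 0 < c) (h1 : c ∣ t) (h2 : ¬ c * ω ∣ t) :
    ∃ U ∈ nhds t, ∀ s ∈ U, c ∣ s → s = t := by
  obtain ⟨r, rfl⟩ := h1
  obtain ⟨q, hq⟩ := Order.not_isSuccPrelimit_iff.1
    (fun h => h2 (mul_dvd_mul_left c (isSuccPrelimit_iff_omega0_dvd.1 h)))
  obtain rfl := CovBy.succ_eq hq
  refine ⟨Ioc (c * q) (c * Order.succ q), (clopen _ _).2.mem_nhds
    ⟨(mul_lt_mul_iff_right₀ hc).2 (Order.lt_succ q), le_rfl⟩, ?_⟩
  rintro _ ⟨a1, a2⟩ ⟨s, rfl⟩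
  exact le_antisymm a2 (mul_le_mul_right (Order.succ_le_of_lt ((mul_lt_mul_iff_right₀ hc).1 a1)) c)

/-- Clopen sets any `m` of which meet and no `m + 1` of which meet. -/
noncomputable def W : ℕ → Ordinal.{0} → ℕ → Set Ordinal.{0}
  | 0, _, _ => ∅
  | m + 1, a, i => Ioc (a + ω ^ m * i) (a + ω ^ m * i + ω ^ m) ∪
      ⋃ k ∈ Finset.range i, W m (a + ω ^ m * k) i

theorem blk (m : ℕ) (a : Ordinal.{0}) (k : ℕ) :
    Ioc (a + ω ^ m * k) (a + ω ^ m * k + ω ^ m) ⊆ Ioc a (a + ω ^ (m + 1)) := by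
  refine Ioc_subset_Ioc le_self_add ?_
  rw [add_assoc, ← mul_add_one, pow_succ]
  exact add_le_add_right (mul_le_mul_right (by exact_mod_cast (natCast_lt_omega0 (k + 1)).le) _) _

theorem blk_eq {m : ℕ} {a t : Ordinal.{0}} {k l : ℕ}
    (h1 : t ∈ Ioc (a + ω ^ m * k) (a + ω ^ m * k + ω ^ m))
    (h2 : t ∈ Ioc (a + ω ^ m * l) (a + ω ^ m * l + ω ^ m)) : k = l := by
  wlog h : k ≤ l generalizing k l
  · exact (this h2 h1 (not_le.1 h).le).symm
  have := h2.1.trans_le h1.2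
  rw [add_assoc, ← mul_add_one, add_lt_add_iff_left, mul_lt_mul_iff_right₀ (pw m)] at this
  have : l < k + 1 := by exact_mod_cast this
  omega

theorem W_sub (m : ℕ) : ∀ a i, W m a i ⊆ Ioc a (a + ω ^ m) := by
  induction m with
  | zero => exact fun _ _ => empty_subset _
  | succ m ih =>
    exact fun a i => union_subset (blk m a i) (iUnion₂_subset fun k _ => (ih _ _).trans (blk m a k))

theorem W_clopen (m : ℕ) : ∀ a i, IsClopen (W m a i) := by
  induction m with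
  | zero => exact fun _ _ => isClopen_empty
  | succ m ih => exact fun a i => (clopen _ _).union (isClopen_biUnion_finset fun k _ => ih _ _)

theorem W_card (m : ℕ) : ∀ a t (G : Finset ℕ), (∀ i ∈ G, t ∈ W m a i) → G.card ≤ m := by
  induction m with
  | zero => exact fun a t G h => (Finset.card_eq_zero.2 (Finset.eq_empty_of_forall_notMem h)).le
  | succ m ih =>
    intro a t G h
    rcases G.eq_empty_or_nonempty with rfl | ⟨j, hj⟩
    · simp
    obtain ⟨k, hk⟩ : ∃ k : ℕ, t ∈ Ioc (a + ω ^ m * k) (a + ω ^ m * k + ω ^ m) := by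
      rcases h j hj with e | e
      · exact ⟨j, e⟩
      · obtain ⟨k, -, e⟩ := mem_iUnion₂.1 e
        exact ⟨k, W_sub m _ _ e⟩
    have := ih (a + ω ^ m * k) t (G.erase k) fun i hi => by
      rcases h i (Finset.mem_of_mem_erase hi) with e | e
      · exact absurd (blk_eq e hk) (Finset.ne_of_mem_erase hi)
      · obtain ⟨l, -, e⟩ := mem_iUnion₂.1 e
        rwa [← blk_eq (W_sub m _ _ e) hk]
    have := Finset.pred_card_le_card_erase (s := G) (a := k)
    omega

theorem W_ex (m : ℕ) : ∀ a (G : Finset ℕ), G.card = m →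
    ∃ t ∈ Ioc a (a + ω ^ m), ∀ i ∈ G, t ∈ W m a i := by
  induction m with
  | zero => exact fun a G h => ⟨a + 1, by simp, by simp [Finset.card_eq_zero.1 h]⟩
  | succ m ih =>
    intro a G h
    have hG : G.Nonempty := Finset.card_pos.1 (by omega)
    obtain ⟨t, t1, t2⟩ := ih (a + ω ^ m * G.min' hG) (G.erase (G.min' hG))
      (by rw [Finset.card_erase_of_mem (G.min'_mem hG), h]; rfl)
    refine ⟨t, blk m a _ t1, fun i hi => ?_⟩
    rcases eq_or_ne i (G.min' hG) with e | e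
    · exact Or.inl (e ▸ t1)
    · exact Or.inr (mem_iUnion₂.2 ⟨_, Finset.mem_range.2 ((G.min'_le i hi).lt_of_ne e.symm),
        t2 i (Finset.mem_erase.2 ⟨e, hi⟩)⟩)

/-- The ordinal interval. -/
abbrev K : Type 1 := Icc (1 : Ordinal.{0}) (ω ^ ω)

/-- Indicator functions of clopen sets. -/
noncomputable def ind {s : Set Ordinal.{0}} (h : IsClopen s) : C(K, ℝ) :=
  ⟨fun t => s.indicator (fun _ => 1) t.1,
    (h.continuous_indicator continuous_const).comp continuous_subtype_val⟩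

theorem few (T : C(K, ℝ) →ₗᵢ[ℝ] C(K, ℝ)) {s : ℕ → Set Ordinal.{0}} (h : ∀ i, IsClopen (s i)) {m : ℕ}
    (hm : ∀ t (G : Finset ℕ), (∀ i ∈ G, t ∈ s i) → G.card ≤ m) (t : K) {δ : ℝ} (hδ : 0 < δ) :
    {i | δ ≤ |T (ind (h i)) t|}.Finite := by
  classical
  by_contra hn
  obtain ⟨n, hn'⟩ := exists_nat_gt (m / δ)
  obtain ⟨G, g1, g2⟩ := Set.Infinite.exists_subset_card_eq hn n
  have a1 : ‖∑ i ∈ G, (SignType.sign (T (ind (h i)) t) : ℝ) • ind (h i)‖ ≤ m :=
    (ContinuousMap.norm_le _ (Nat.cast_nonneg m)).2 fun x => by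
      refine le_trans ?_ (Nat.cast_le.2 (hm x (G.filter fun i => x.1 ∈ s i) fun i hi =>
        (Finset.mem_filter.1 hi).2))
      rw [ContinuousMap.sum_apply, Finset.card_filter, Nat.cast_sum]
      refine norm_sum_le_of_le _ fun i _ => ?_
      by_cases hx : x.1 ∈ s i <;> rcases SignType.trichotomy (SignType.sign (T (ind (h i)) t))
        with e | e | e <;> rw [e] <;> simp [ind, hx]
  have a2 := (le_abs_self _).trans ((ContinuousMap.norm_coe_le_norm _ t).trans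
    ((T.norm_map _).trans_le a1))
  simp only [map_sum, map_smul, ContinuousMap.sum_apply, ContinuousMap.smul_apply,
    _root_.smul_eq_mul, sign_mul_self] at a2
  have a3 := Finset.card_nsmul_le_sum G _ δ fun i hi => g1 hi
  rw [g2, _root_.nsmul_eq_mul] at a3
  rw [div_lt_iff₀ hδ] at hn'
  linarith

theorem result (T : C(Icc (1 : Ordinal.{0}) (ω ^ ω), ℝ) →ₗᵢ[ℝ] C(Icc (1 : Ordinal.{0}) (ω ^ ω), ℝ))
    (C : ℝ) : ∃ f g, C * ‖|T f| - |T g|‖ < min ‖T f - T g‖ ‖T f + T g‖ := by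
  classical
  by_contra hn
  push Not at hn
  obtain ⟨c, c0, hc⟩ : ∃ c : ℝ, 0 < c ∧ ∀ u v, 1 ≤ ‖u‖ → 1 ≤ ‖v‖ →
      ∃ t, c ≤ |T u t| ∧ c ≤ |T v t| := by
    have p : 0 < max C 1 := by positivity
    refine ⟨(2 * max C 1)⁻¹, by positivity, fun u v hu hv => ?_⟩
    by_contra hh
    have a1 : ‖|T (u + v)| - |T (u - v)|‖ ≤ (max C 1)⁻¹ :=
      (ContinuousMap.norm_le _ (by positivity)).2 fun t => by
        have := not_and_or.1 (not_exists.1 hh t)
        simp only [map_add, map_sub, ContinuousMap.sub_apply, ContinuousMap.abs_apply,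
          ContinuousMap.add_apply, Real.norm_eq_abs, not_le, mul_inv] at this ⊢
        generalize T u t = a at *
        generalize T v t = b at *
        have h1 := abs_abs_sub_abs_le_abs_sub (a + b) (a - b)
        have h2 := abs_abs_sub_abs_le_abs_sub (a + b) (-(a - b))
        rw [abs_neg, show a + b - -(a - b) = 2 * a by ring, abs_mul, abs_two] at h2
        rw [show a + b - (a - b) = 2 * b by ring, abs_mul, abs_two] at h1
        rcases this with e | e <;> linarith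
    have a2 := hn (u + v) (u - v)
    rw [← map_sub, ← map_add, T.norm_map, T.norm_map, show u + v - (u - v) = (2 : ℝ) • v by module,
      show u + v + (u - v) = (2 : ℝ) • u by module, norm_smul, norm_smul, Real.norm_two] at a2
    have a3 := (mul_le_mul_of_nonneg_right (le_max_left C 1) (norm_nonneg _)).trans
      (mul_le_mul_of_nonneg_left a1 p.le)
    rw [mul_inv_cancel₀ p.ne'] at a3
    rcases min_le_iff.1 a2 with e | e <;> linarith
  have lt : ∀ n : ℕ, (ω ^ n : Ordinal.{0}) < ω ^ ω := fun n => by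
    rw [← opow_natCast]; exact (opow_lt_opow_iff_right one_lt_omega0).2 (natCast_lt_omega0 n)
  have one : (1 : Ordinal.{0}) ≤ ω ^ ω := by simpa using (lt 0).le
  obtain ⟨k, -, hk⟩ := Set.infinite_univ.exists_notMem_finite (few T
    (fun i : ℕ => clopen i (i + 1)) (m := 1) (fun t G h => Finset.card_le_one.2 fun a ha b hb =>
      blk_eq (m := 0) (a := 0) (t := t) (by simpa using h a ha) (by simpa using h b hb))
    ⟨_, one, le_rfl⟩ c0)
  set e := ind (clopen k (k + 1))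
  have e1 : 1 ≤ ‖e‖ := by
    simpa [e, ind] using e.norm_coe_le_norm ⟨k + 1, le_add_self, by
      refine le_trans ?_ (lt 1).le
      rw [pow_one]
      exact_mod_cast (natCast_lt_omega0 (k + 1)).le⟩
  have hZ : IsClosed {t | c ≤ |T e t|} := isClosed_le continuous_const (T e).continuous.abs
  obtain ⟨n, hn⟩ : ∃ n : ℕ, ∀ t, c ≤ |T e t| → ¬ ω ^ n ∣ t.1 := by
    obtain ⟨t, -, ht⟩ := hc e e e1 e1
    obtain ⟨s, s1, s2⟩ := hZ.isCompact.exists_isGreatest ⟨t, ht⟩
    obtain ⟨_, a1, a2⟩ := (lt_opow_of_isSuccLimit omega0_ne_zero isSuccLimit_omega0).1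
      (s.2.2.lt_of_ne fun h => hk (by rwa [← Subtype.ext (a2 := ⟨_, one, le_rfl⟩) h]))
    obtain ⟨n, rfl⟩ := lt_omega0.1 a1
    rw [opow_natCast] at a2
    exact ⟨n, fun t ht h => absurd (Ordinal.le_of_dvd (one_pos.trans_le t.2.1).ne' h)
      (not_le.2 (lt_of_le_of_lt (s2 ht) a2))⟩
  obtain ⟨m, hm⟩ := exists_nat_gt (n / (c / 2))
  rw [div_lt_iff₀ (half_pos c0)] at hm
  have m0 : (0 : ℝ) < m :=
    (mul_pos_iff_of_pos_right (half_pos c0)).1 ((Nat.cast_nonneg n).trans_lt hm)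
  let U : ℕ → Set K := fun i => {t | c / 2 ≤ |T (ind (W_clopen m 0 i)) t|}
  have key : ∀ d j, j + d = n → ∃ N : Set ℕ, N.Infinite ∧ ∀ t ∈ {t : K | c ≤ |T e t|} ∩
      {t | ω ^ j ∣ t.1}, ∀ G : Finset ℕ, ↑G ⊆ N → (∀ i ∈ G, t ∈ U i) → G.card ≤ d := by
    intro d
    induction d with
    | zero =>
      rintro j rfl
      exact ⟨univ, infinite_univ, fun t ht => absurd ht.2 (hn t ht.1)⟩
    | succ d ih =>
      intro j hj
      obtain ⟨N, n1, n2⟩ := ih (j + 1) (by omega)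
      refine sparse U (fun i => isClosed_le continuous_const (T _).continuous.abs)
        (fun t => few T _ (W_card m 0) t (half_pos c0))
        (hZ.inter ((closed_dvd (pw j)).preimage continuous_subtype_val)) (fun D d1 d2 d3 => ?_) n1 n2
      choose! V v1 v2 using fun t (ht : t ∈ D) => isolated (pw j) (d2 ht).2 fun h =>
        disjoint_left.1 d3 ht ⟨(d2 ht).1, by rwa [← pow_succ] at h⟩
      obtain ⟨F, f1, f2⟩ := d1.isCompact.elim_nhds_subcover (fun t => Subtype.val ⁻¹' V t)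
        fun t ht => continuous_subtype_val.continuousAt.preimage_mem_nhds (v1 t ht)
      refine F.finite_toSet.subset fun t ht => ?_
      obtain ⟨s, s1, s2⟩ := mem_iUnion₂.1 (f2 ht)
      rwa [Subtype.ext (v2 s (f1 s s1) t s2 (d2 ht).2)]
  obtain ⟨N, n1, n2⟩ := key n 0 (zero_add n)
  obtain ⟨G, g1, g2⟩ := n1.exists_subset_card_eq m
  obtain ⟨x, x1, x2⟩ := W_ex m 0 G g2
  obtain ⟨t, t1, t2⟩ := hc ((m : ℝ)⁻¹ • ∑ i ∈ G, ind (W_clopen m 0 i)) e (by
    refine le_trans ?_ (ContinuousMap.norm_coe_le_norm _ ⟨x, Order.one_le_iff_pos.2 x1.1,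
      x1.2.trans (by simpa using (lt m).le)⟩)
    rw [ContinuousMap.smul_apply, ContinuousMap.sum_apply, Finset.sum_congr rfl fun i hi =>
      (show ind (W_clopen m 0 i) ⟨x, _⟩ = 1 from indicator_of_mem (x2 i hi) fun _ => 1)]
    simp [g2, m0.ne']) e1
  have a1 := n2 t ⟨t2, by simp⟩ (G.filter fun i => t ∈ U i)
    (fun i hi => g1 (Finset.mem_filter.1 hi).1) fun i hi => (Finset.mem_filter.1 hi).2
  have a2 : ∀ i ∈ G, |T (ind (W_clopen m 0 i)) t| ≤ (if t ∈ U i then 1 else 0) + c / 2 :=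
    fun i _ => by
      split_ifs with h
      · refine le_trans ((T _).norm_coe_le_norm t) ((T.norm_map _).trans_le
          ((ContinuousMap.norm_le _ (by positivity)).2 fun x => ?_))
        by_cases hx : x.1 ∈ W m 0 i <;> simp [ind, hx] <;> positivity
      · rw [zero_add]; exact (not_le.1 h).le
  have a3 := (Finset.abs_sum_le_sum_abs _ _).trans (Finset.sum_le_sum a2)
  rw [Finset.sum_add_distrib, Finset.sum_boole, Finset.sum_const, g2, _root_.nsmul_eq_mul] at a3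
  rw [map_smul, map_sum, ContinuousMap.smul_apply, ContinuousMap.sum_apply,
    _root_.smul_eq_mul, abs_mul,
    abs_of_pos (inv_pos.2 m0), le_inv_mul_iff₀ m0] at t1
  have : ((G.filter fun i => t ∈ U i).card : ℝ) ≤ n := by exact_mod_cast a1
  linarith

end Pool.Agent.Results.MP_abea68_an.Main
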